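import Pool.Agent.N798.H.Stm2
import Pool.Agent.N539.T.FD

set_option autoImplicit false

/-!
Project HS (helper798), task HS/FB: the Fourier transform of a weight minus its density is small at all
frequencies, on windows of any length.
-/

namespace Pool.Agent.N887.HS

open Finset MeasureTheory Filter Topology
open scoped ENNReal
open Pool.Agent.H376R2.MR (er)
open Pool.Agent.N798.T
open Pool.Agent.N798.HS
open Pool.Agent.N539.T

/-- the two parts of the integrand are interval integrable -/
theorem ii_a (a : ℕ → ℂ) (ha : ∀ n, ‖a n‖ ≤ 1) (b : ℤ) (η p q : ℝ) :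
    IntervalIntegrable (fun y => a (vl b (Real.exp y)) * er (-η) y) volume p q :=
  ii_step (fun n => a ((n + b).toNat)) (fun _ => ha _) (-η) p q

theorem ii_d (e : ℕ) (η p q : ℝ) (hp : 1 ≤ p) (hq : 1 ≤ q) :
    IntervalIntegrable (fun y : ℝ => ((1 / y ^ e : ℝ) : ℂ) * er (-η) y) volume p q := by
  refine ContinuousOn.intervalIntegrable ?_
  refine ContinuousOn.mul (Complex.continuous_ofReal.comp_continuousOn ?_) (cont_er _).continuousOn
  refine ContinuousOn.div continuousOn_const (continuousOn_id.pow _) ?_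
  intro x hx
  have h1 : min p q ≤ x := hx.1
  have h2 : 1 ≤ min p q := le_min hp hq
  have : 0 < x := by linarith
  exact pow_ne_zero _ this.ne'

theorem ii_ad (a : ℕ → ℂ) (ha : ∀ n, ‖a n‖ ≤ 1) (b : ℤ) (e : ℕ) (η p q : ℝ) (hp : 1 ≤ p) (hq : 1 ≤ q) :
    IntervalIntegrable (fun y : ℝ => (a (vl b (Real.exp y)) - ((1 / y ^ e : ℝ) : ℂ)) * er (-η) y)
      volume p q := by
  have h := (ii_a a ha b η p q).sub (ii_d e η p q hp hq)
  refine h.congr fun y _ => ?_
  exact (sub_mul _ _ _).symm

/-- one window of length at most `1` -/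
theorem win (h1 : S_FT) (h2 : S_F0) (a : ℕ → ℂ) (e : ℕ) (ha : Wt a e) (b : ℤ) (A K : ℕ) :
    ∃ C : ℝ, 0 ≤ C ∧ ∀ z z' η : ℝ, 1 ≤ z → z ≤ z' → z' ≤ z + 1 → |η| ≤ Real.exp (A * z) →
      ‖∫ y in z..z', (a (vl b (Real.exp y)) - ((1 / y ^ e : ℝ) : ℂ)) * er (-η) y‖ ≤ C / z ^ K := by
  obtain ⟨K', C1, hC1⟩ := h1 a e ha b A K 1 zero_le_one
  obtain ⟨C0, hC0⟩ := h2 a e ha b K (max K' K) 1 zero_le_one
  refine ⟨|C0| + |C1| + 2, by positivity, fun z z' η hz hzz hz' hη => ?_⟩
  have hzp : 0 < z := by linarith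
  have hzK : 0 < z ^ K := by positivity
  rcases le_or_gt |η| (z ^ (max K' K)) with hc | hc
  · refine (hC0 z z z' η hz le_rfl hzz hz' hc).trans ?_
    refine div_le_div_of_nonneg_right ?_ hzK.le
    have := le_abs_self C0
    have := abs_nonneg C1
    linarith
  · have e1 : z ^ K' ≤ z ^ (max K' K) := pow_le_pow_right₀ hz (le_max_left _ _)
    have e2 : z ^ K ≤ z ^ (max K' K) := pow_le_pow_right₀ hz (le_max_right _ _)
    have hη0 : 0 < |η| := lt_of_le_of_lt (by positivity) hc
    have hηn : -η ≠ 0 := by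
      intro h
      have : η = 0 := by linarith
      rw [this] at hη0
      simp at hη0
    have f1 := hC1 z z z' 0 η hz le_rfl hzz hz' (by rw [abs_zero]; positivity) hη
      (by rw [zero_sub, abs_neg]; exact e1.trans hc.le)
    have f1' : ‖∫ y in z..z', a (vl b (Real.exp y)) * er (-η) y‖ ≤ C1 / z ^ K := by
      have g : ∫ y in z..z', a (vl b (Real.exp y)) * er (-η) y =
          ∫ y in z..z', a (vl b (Real.exp y)) * er 0 (Real.log (vl b (Real.exp y))) * er (-η) y := by
        refine intervalIntegral.integral_congr fun y _ => ?_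
        simp only [er_zero, mul_one]
      rw [g]
      exact f1
    have f2 := dens_bd e (-η) hηn z z' hz hzz
    rw [abs_neg] at f2
    have f2' : ‖∫ y in z..z', ((1 / y ^ e : ℝ) : ℂ) * er (-η) y‖ ≤ 2 / z ^ K := by
      refine f2.trans ?_
      exact div_le_div_of_nonneg_left (by norm_num) hzK (e2.trans hc.le)
    have hs : ∫ y in z..z', (a (vl b (Real.exp y)) - ((1 / y ^ e : ℝ) : ℂ)) * er (-η) y =
        (∫ y in z..z', a (vl b (Real.exp y)) * er (-η) y) -
          ∫ y in z..z', ((1 / y ^ e : ℝ) : ℂ) * er (-η) y := by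
      rw [← intervalIntegral.integral_sub (ii_a a ha.le_one b η z z') (ii_d e η z z' hz (hz.trans hzz))]
      refine intervalIntegral.integral_congr fun y _ => ?_
      ring
    rw [hs]
    refine (norm_sub_le _ _).trans ?_
    refine (add_le_add f1' f2').trans ?_
    rw [← add_div]
    refine div_le_div_of_nonneg_right ?_ hzK.le
    have := le_abs_self C1
    have := abs_nonneg C0
    linarith

theorem fb (h1 : Pool.Agent.N798.T.S_FT) (h2 : Pool.Agent.N798.T.S_F0) : S_FB := by
  intro a e ha b A K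
  obtain ⟨C, hC, hw⟩ := win h1 h2 a e ha b A K
  refine ⟨C, fun Y y1 y2 η hY hy1 hy12 hη => ?_⟩
  have hYp : 0 < Y := by linarith
  have hYK : 0 < Y ^ K := by positivity
  have key : ∀ (n : ℕ) (y2 : ℝ), y1 ≤ y2 → y2 ≤ y1 + n →
      ‖∫ y in y1..y2, (a (vl b (Real.exp y)) - ((1 / y ^ e : ℝ) : ℂ)) * er (-η) y‖ ≤ C * n / Y ^ K := by
    intro n
    induction n with
    | zero =>
      intro y2 h3 h4
      have : y2 = y1 := le_antisymm (by simpa using h4) h3
      subst this
      simp
    | succ n ih =>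
      intro y2 h3 h4
      have hC' : 0 ≤ C / Y ^ K := by positivity
      have e1 : C * ((n + 1 : ℕ) : ℝ) / Y ^ K = C * n / Y ^ K + C / Y ^ K := by
        push_cast
        ring
      rw [e1]
      rcases le_or_gt y2 (y1 + n) with h5 | h5
      · have := ih y2 h3 h5
        linarith
      · set c := y1 + (n : ℝ) with hc
        have hn : (0 : ℝ) ≤ n := Nat.cast_nonneg n
        have hyc : y1 ≤ c := by rw [hc]; linarith
        have hYc : Y ≤ c := hy1.trans hyc
        have hc1 : 1 ≤ c := hY.trans hYc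
        have i1 := ih c hyc le_rfl
        have i2 := hw c y2 η hc1 h5.le (by push_cast at h4; linarith) (by
          refine hη.trans (Real.exp_le_exp.2 ?_)
          gcongr)
        rw [← intervalIntegral.integral_add_adjacent_intervals
          (ii_ad a ha.le_one b e η y1 c (hY.trans hy1) hc1)
          (ii_ad a ha.le_one b e η c y2 hc1 (hc1.trans h5.le))]
        refine (norm_add_le _ _).trans (add_le_add i1 (i2.trans ?_))
        exact div_le_div_of_nonneg_left hC hYK (pow_le_pow_left₀ hYp.le hYc K)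
  have h5 := key ⌈y2 - y1⌉₊ y2 hy12 (by have := Nat.le_ceil (y2 - y1); linarith)
  refine h5.trans ?_
  refine div_le_div_of_nonneg_right ?_ hYK.le
  refine mul_le_mul_of_nonneg_left ?_ hC
  exact (Nat.ceil_lt_add_one (by linarith)).le

end Pool.Agent.N887.HS
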